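import Pool.Agent.Q142.Cone.Hyp
import Pool.Agent.Q142.Cone.Lin

/-!
MP_efec2f_gt, Q1: the answer is negative. The hyperbolic plane and the binary tree have the same
asymptotic cones (for all base points, scales and ultrafilters they are the universal real tree
with continuum branching), but the growth type of `log` belongs only to the spectrum of the
hyperbolic plane (horocycles), for both index sets.
-/

set_option autoImplicit false

open Filter Topology Pool.Agent.Q142.Cone

namespace Pool.Agent.Results.MP_efec2f_gt.PlaneVersusTree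

/-- the logarithmic rate function -/
noncomputable def lg (n : ℕ) : ℝ := Real.log (n + 1)

theorem lg_rate : IsRate lg where
  pos n hn := Real.log_pos (by
    have : (1 : ℝ) ≤ n := by exact_mod_cast hn
    linarith)
  mono m n _ hmn := Real.log_le_log (by positivity) (by
    have : (m : ℝ) ≤ n := by exact_mod_cast hmn
    linarith)
  unbounded C := by
    obtain ⟨n, hn⟩ := exists_nat_gt (Real.exp C)
    refine ⟨n + 1, by omega, ?_⟩
    unfold lg
    rw [Real.lt_log_iff_exp_lt (by positivity)]
    push_cast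
    linarith
  scaling M hM := by
    refine ⟨1, 2, one_pos, two_pos, ?_⟩
    filter_upwards [eventually_ge_atTop M] with N hN
    have h1 : (1 : ℝ) ≤ M := by exact_mod_cast hM
    have h2 : (M : ℝ) ≤ N := by exact_mod_cast hN
    constructor
    · rw [one_mul]
      apply Real.log_le_log (by positivity)
      push_cast
      nlinarith
    · unfold lg
      rw [← Real.log_rpow (by positivity)]
      apply Real.log_le_log (by positivity)
      rw [Real.rpow_two]
      push_cast
      nlinarith

/-- the horocycle through `i` -/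
noncomputable def horo (n : ℤ) : HP := Hyp.br UpperHalfPlane.I 0 n

theorem dist_horo (m n : ℤ) :
    dist (horo n) (horo m) = 2 * Real.arsinh ((n - m).natAbs / 2) := by
  unfold horo
  rw [Hyp.dist_horiz, Real.exp_zero, mul_one]
  congr 3
  rw [Nat.cast_natAbs]
  push_cast
  rfl

theorem horo_distorted (I : Set ℤ) : Distorted I (fun n => horo n) lg := by
  refine ⟨1, 2, 1, one_pos, two_pos, le_rfl, fun m n hmn => ?_⟩
  rw [dist_horo, one_mul]
  set k : ℕ := ((n : ℤ) - m).natAbs
  have hk : (0 : ℝ) ≤ k := Nat.cast_nonneg k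
  have hsq : (1 : ℝ) ≤ Real.sqrt (1 + (k / 2) ^ 2) := by
    rw [Real.one_le_sqrt]
    nlinarith [sq_nonneg ((k : ℝ) / 2)]
  have hsq2 : Real.sqrt (1 + ((k : ℝ) / 2) ^ 2) ≤ 1 + k / 2 := by
    rw [Real.sqrt_le_left (by positivity)]
    nlinarith
  have hsq3 : Real.sqrt (1 + ((k : ℝ) / 2) ^ 2) ^ 2 = 1 + (k / 2) ^ 2 :=
    Real.sq_sqrt (by positivity)
  unfold lg
  rw [Real.arsinh]
  constructor
  · rw [← Real.log_rpow (by positivity), Real.rpow_two]
    apply Real.log_le_log (by positivity)
    nlinarith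
  · have h1 : Real.log (k / 2 + Real.sqrt (1 + (k / 2) ^ 2)) ≤ Real.log (k + 1) := by
      apply Real.log_le_log (by positivity)
      linarith
    linarith

theorem log_mem (I : Set ℤ) : Quotient.mk growthSetoid ⟨lg, lg_rate⟩ ∈ spectrum I HP :=
  ⟨⟨lg, lg_rate⟩, rfl, fun n => horo n, horo_distorted I⟩

theorem log_not_mem (I : Set ℤ) (hI : ∀ n : ℤ, 1 ≤ n → n ∈ I) :
    Quotient.mk growthSetoid ⟨lg, lg_rate⟩ ∉ spectrum I BT := by
  rintro ⟨f, hf, p, A, B, N₀, hA, hB, hN₀, hp⟩
  have hsame : SameGrowth f.1 lg := Quotient.exact hf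
  obtain ⟨c, C, hc, hC, hev⟩ := hsame
  let q : ℕ → BT := fun n => p ⟨(n : ℤ) + 1, hI _ (by omega)⟩
  obtain ⟨K, hK, hlin⟩ := linear_growth BT.four BT.geodesic q f.1 f.2 A B N₀ hA hN₀ (by
    intro m n hmn
    have h1 := hp ⟨(m : ℤ) + 1, hI _ (by omega)⟩ ⟨(n : ℤ) + 1, hI _ (by omega)⟩
    have h2 : (((n : ℤ) + 1) - ((m : ℤ) + 1)).natAbs = n - m := by omega
    simp only [h2] at h1
    exact h1 (by omega))
  have hup : ∀ᶠ N : ℕ in atTop, (N : ℝ) ≤ K * (B * (C * Real.log (N + 1)) + 3) := by
    filter_upwards [hev, eventually_ge_atTop N₀] with N hN hN2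
    have h1 := hp ⟨((0 : ℕ) : ℤ) + 1, hI _ (by omega)⟩ ⟨(N : ℤ) + 1, hI _ (by omega)⟩
    have h2 : (((N : ℤ) + 1) - (((0 : ℕ) : ℤ) + 1)).natAbs = N := by omega
    simp only [h2] at h1
    have h3 := (h1 (by omega)).2
    have h4 := hlin N
    have h5 : dist (q 0) (q N) ≤ B * f.1 N := by
      rw [dist_comm]; exact h3
    have h6 : f.1 N ≤ C * Real.log (N + 1) := hN.2
    have h7 : B * f.1 N ≤ B * (C * Real.log (N + 1)) := mul_le_mul_of_nonneg_left h6 hB.le
    calc (N : ℝ) ≤ K * (dist (q 0) (q N) + 3) := h4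
      _ ≤ K * (B * (C * Real.log (N + 1)) + 3) := by
        apply mul_le_mul_of_nonneg_left _ hK.le
        linarith
  have hlog : Tendsto (fun N : ℕ => K * (B * (C * Real.log ((N : ℝ) + 1)) + 3) / ((N : ℝ) + 1))
      atTop (𝓝 0) := by
    have h1 : Tendsto (fun x : ℝ => Real.log x / x) atTop (𝓝 0) := by
      have := Real.isLittleO_log_id_atTop.tendsto_div_nhds_zero
      exact this
    have h2 : Tendsto (fun N : ℕ => (N : ℝ) + 1) atTop atTop :=
      tendsto_atTop_add_const_right _ _ tendsto_natCast_atTop_atTop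
    have h3 := h1.comp h2
    have h4 : Tendsto (fun N : ℕ => K * B * C * (Real.log ((N : ℝ) + 1) / ((N : ℝ) + 1)) +
        3 * K / ((N : ℝ) + 1)) atTop (𝓝 (K * B * C * 0 + 0)) :=
      (h3.const_mul _).add (tendsto_const_nhds.div_atTop h2)
    rw [mul_zero, add_zero] at h4
    refine h4.congr fun N => ?_
    field_simp
  have h1 := hlog.eventually (gt_mem_nhds (by norm_num : (0 : ℝ) < 1 / 4))
  obtain ⟨N, hN1, hN2, hN3⟩ := (hup.and (h1.and (eventually_ge_atTop 1))).exists
  have hN0 : (0 : ℝ) < (N : ℝ) + 1 := by positivity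
  rw [div_lt_iff₀ hN0] at hN2
  have : (1 : ℝ) ≤ N := by exact_mod_cast hN3
  linarith

/-- The answer to Q1 is no: there are nonempty proper geodesic spaces `X`, `Y` all of whose
asymptotic cones are bi-Lipschitz equivalent, for all base points, scales and non-principal
ultrafilters, while the sequence distortion spectra of `X` and `Y` differ, for both index sets. -/
theorem result : ∃ (X Y : Type) (_ : MetricSpace X) (_ : MetricSpace Y),
    Nonempty X ∧ Nonempty Y ∧ ProperSpace X ∧ ProperSpace Y ∧ Geodesic X ∧ Geodesic Y ∧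
    SameCones X Y ∧ spectrum idxN X ≠ spectrum idxN Y ∧ spectrum idxZ X ≠ spectrum idxZ Y := by
  refine ⟨HP, BT, inferInstance, inferInstance, ⟨UpperHalfPlane.I⟩,
    ⟨⟨fun _ => false, 0, le_rfl, fun _ _ => rfl⟩⟩, inferInstance,
    inferInstance, Hyp.geodesic, BT.geodesic, sameCones Hyp.good BT.good, ?_, ?_⟩
  · intro h
    exact log_not_mem idxN (fun n hn => hn) (h ▸ log_mem idxN)
  · intro h
    exact log_not_mem idxZ (fun n _ => Set.mem_univ n) (h ▸ log_mem idxZ)

end Pool.Agent.Results.MP_efec2f_gt.PlaneVersusTree
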